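import Pool.Agent.Helper94.EP.Defs

/-!
Project EP (MP_b8862a_ag), block EP-G: (3.1) the coordinates of the roots of positive level, (3.2) irreducibility.
-/

set_option linter.unusedSectionVars false
set_option linter.unusedVariables false

namespace EP

open PF PG TR

variable {E : Type*} [NormedAddCommGroup E] [InnerProductSpace ℝ E] {Φ X : Finset E} {ℓ : E →ₗ[ℝ] ℝ}

/-- All coordinates are equal, up to one, which may deviate by one. -/
def Small (p : ℕ) (ν : ℕ → E) (l : ℝ) (x : E) : Prop :=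
  ∃ C s : ℝ, ∃ k < p, (s = 0 ∨ s = 1 ∨ s = -1) ∧
    ∀ i < p, (inner ℝ (ν i) x : ℝ) = C + s * (l / 2) * (if i = k then 1 else 0)

/-- The coordinates are not all equal. -/
def Nonc (p : ℕ) (ν : ℕ → E) (x : E) : Prop :=
  ∃ i < p, ∃ j < p, (inner ℝ (ν i) x : ℝ) ≠ inner ℝ (ν j) x

theorem exists_fifth {p : ℕ} (hp : 5 ≤ p) (a b c d : ℕ) : ∃ j < p, j ≠ a ∧ j ≠ b ∧ j ≠ c ∧ j ≠ d := by
  classical
  have h1 : ((Finset.range 5) \ {a, b, c, d}).Nonempty := by
    rw [← Finset.card_pos]
    have h2 := Finset.le_card_sdiff ({a, b, c, d} : Finset ℕ) (Finset.range 5)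
    have h3 : ({a, b, c, d} : Finset ℕ).card ≤ 4 := Finset.card_le_four
    rw [Finset.card_range] at h2
    omega
  obtain ⟨j, hj⟩ := h1
  rw [Finset.mem_sdiff, Finset.mem_range] at hj
  simp only [Finset.mem_insert, Finset.mem_singleton, not_or] at hj
  exact ⟨j, by omega, hj.2.1, hj.2.2.1, hj.2.2.2.1, hj.2.2.2.2⟩

section

variable {p : ℕ} {ν : ℕ → E} {l c : ℝ}

/-- A root with two equal coordinates and a small translate. -/
theorem coord_cases (hp : 5 ≤ p) (hl : 0 < l)
    (hgram : ∀ i < p, ∃ M : ℝ, ∀ j < p, (inner ℝ (ν j) (ν i) : ℝ) = M + if j = i then l / 2 else 0)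
    {g x : E} (hx : Small p ν l x) (hxg : Small p ν l (x - g))
    (hnn : ∀ i < p, (0 : ℝ) ≤ inner ℝ (ν i) g)
    (hsm : ∀ i < p, (0 : ℝ) < inner ℝ (ν i) g → Small p ν l (ν i - g))
    (hty : Nonc p ν g) :
    (∃ k < p, ∀ i < p, (inner ℝ (ν i) g : ℝ) = if i = k then l / 2 else 0) ∨
    (∃ k < p, ∃ m < p, k ≠ m ∧ ∀ i < p, (inner ℝ (ν i) g : ℝ) = if i = k ∨ i = m then l / 2 else 0) ∨
    (∃ k < p, ∀ i < p, (inner ℝ (ν i) g : ℝ) = if i = k then l else 0) := by
  obtain ⟨C₁, s, k, hk, hs, h1⟩ := hx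
  obtain ⟨C₂, t, m, hm, ht, h2⟩ := hxg
  have hG : ∀ i < p, (inner ℝ (ν i) g : ℝ) = (C₁ - C₂) + (l / 2) * ((s * if i = k then 1 else 0) - t * if i = m then 1 else 0) := by
    intro i hi
    have e1 := h1 i hi
    have e2 := h2 i hi
    rw [inner_sub_right] at e2
    linarith
  generalize C₁ - C₂ = C at hG
  -- the coordinates other than `k`, `m` vanish
  have hC : C = 0 := by
    by_contra hne
    obtain ⟨i, hi, hik, him, -, -⟩ := exists_fifth hp k m k m
    have e0 : (inner ℝ (ν i) g : ℝ) = C := by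
      rw [hG i hi, if_neg hik, if_neg him]
      ring
    have hpos : (0 : ℝ) < inner ℝ (ν i) g := by
      rw [e0]
      have := hnn i hi
      rw [e0] at this
      exact lt_of_le_of_ne this (Ne.symm hne)
    obtain ⟨C₃, s', k', hk', hs', h3⟩ := hsm i hi hpos
    obtain ⟨j0, hj0, hj0i, hj0k, hj0m, hj0k'⟩ := exists_fifth hp i k m k'
    obtain ⟨M, hM⟩ := hgram i hi
    have f0 := h3 j0 hj0
    rw [inner_sub_right, hM j0 hj0, if_neg hj0i, hG j0 hj0, if_neg hj0k, if_neg hj0m, if_neg hj0k'] at f0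
    have fi := h3 i hi
    rw [inner_sub_right, hM i hi, if_pos rfl, hG i hi, if_neg hik, if_neg him] at fi
    have hik' : i = k' := by
      by_contra hne'
      rw [if_neg hne'] at fi
      linarith
    subst hik'
    -- all others are constant
    have fj : ∀ j < p, j ≠ i → (inner ℝ (ν j) g : ℝ) = C := by
      intro j hj hji
      have f := h3 j hj
      rw [inner_sub_right, hM j hj, if_neg hji, if_neg hji] at f
      linarith
    obtain ⟨a, ha, b, hb, hab⟩ := hty
    apply hab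
    have hall : ∀ j < p, (inner ℝ (ν j) g : ℝ) = C := by
      intro j hj
      by_cases hji : j = i
      · rw [hji, e0]
      · exact fj j hj hji
    rw [hall a ha, hall b hb]
  subst hC
  simp only [zero_add] at hG
  by_cases hkm : k = m
  · subst hkm
    have hG' : ∀ i < p, (inner ℝ (ν i) g : ℝ) = if i = k then (l / 2) * (s - t) else 0 := by
      intro i hi
      rw [hG i hi]
      split_ifs <;> ring
    have hk0 := hnn k hk
    rw [hG' k hk, if_pos rfl] at hk0
    have hst : 0 ≤ s - t := by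
      by_contra h
      push Not at h
      nlinarith
    have hst' : s - t ≠ 0 := by
      intro h
      obtain ⟨a, ha, b, hb, hab⟩ := hty
      apply hab
      rw [hG' a ha, hG' b hb, h]
      simp
    have hst2 : s - t = 1 ∨ s - t = 2 := by
      rcases hs with rfl | rfl | rfl <;> rcases ht with rfl | rfl | rfl <;>
        first
        | (exfalso; linarith)
        | (left; norm_num; done)
        | (right; norm_num; done)
        | (exfalso; apply hst'; norm_num; done)
    rcases hst2 with h | h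
    · left
      refine ⟨k, hk, fun i hi => ?_⟩
      rw [hG' i hi, h, mul_one]
    · right; right
      refine ⟨k, hk, fun i hi => ?_⟩
      rw [hG' i hi, h]
      split_ifs <;> ring
  · have hk0 := hnn k hk
    have hm0 := hnn m hm
    rw [hG k hk, if_pos rfl, if_neg hkm] at hk0
    rw [hG m hm, if_pos rfl, if_neg (Ne.symm hkm)] at hm0
    have hs0 : 0 ≤ s := by
      by_contra h
      push Not at h
      nlinarith
    have ht0 : t ≤ 0 := by
      by_contra h
      push Not at h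
      nlinarith
    have hs' : s = 0 ∨ s = 1 := by
      rcases hs with rfl | rfl | rfl <;>
        first
        | (exfalso; linarith)
        | (left; rfl)
        | (right; rfl)
    have ht' : t = 0 ∨ t = -1 := by
      rcases ht with rfl | rfl | rfl <;>
        first
        | (exfalso; linarith)
        | (left; rfl)
        | (right; rfl)
    rcases hs' with rfl | rfl <;> rcases ht' with rfl | rfl
    · exfalso
      obtain ⟨a, ha, b, hb, hab⟩ := hty
      apply hab
      rw [hG a ha, hG b hb]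
      ring
    · left
      refine ⟨m, hm, fun i hi => ?_⟩
      rw [hG i hi]
      split_ifs <;> ring
    · left
      refine ⟨k, hk, fun i hi => ?_⟩
      rw [hG i hi]
      split_ifs <;> ring
    · right; left
      refine ⟨k, hk, m, hm, hkm, fun i hi => ?_⟩
      rw [hG i hi]
      by_cases h1 : i = k
      · have h2 : i ≠ m := fun h => hkm (h1.symm.trans h)
        rw [if_pos h1, if_neg h2, if_pos (Or.inl h1)]
        ring
      · by_cases h2 : i = m
        · rw [if_neg h1, if_pos h2, if_pos (Or.inr h2)]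
          ring
        · rw [if_neg h1, if_neg h2, if_neg (by tauto)]
          ring

/-- (3.2) A vector which is orthogonal to all roots with non-constant coordinates is orthogonal to all roots. -/
theorem orth_all (h : RS Φ) (hdiff : ∀ i < p, ∀ j < p, i ≠ j → ν i - ν j ∈ Φ) (hp : 2 ≤ p) {v : E}
    (hv : ∀ r ∈ Φ, Nonc p ν r → (inner ℝ v r : ℝ) = 0) : ∀ r ∈ Φ, (inner ℝ v r : ℝ) = 0 := by
  classical
  -- reflections in a root with constant coordinates
  have hrefl : ∀ c : E, ¬ Nonc p ν c → ∀ t : ℝ, ∀ r : E, Nonc p ν r → Nonc p ν (r - t • c) := by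
    intro c hc t r hr
    obtain ⟨i, hi, j, hj, hij⟩ := hr
    refine ⟨i, hi, j, hj, ?_⟩
    have h1 : (inner ℝ (ν i) c : ℝ) = inner ℝ (ν j) c := by
      by_contra h2
      exact hc ⟨i, hi, j, hj, h2⟩
    rw [inner_sub_right, inner_sub_right, inner_smul_right, inner_smul_right, h1]
    intro h2
    apply hij
    linarith
  obtain ⟨S, hS⟩ : ∃ S : Finset E, ∀ c, c ∈ S ↔ c ∈ Φ ∧ ∃ r ∈ Φ, Nonc p ν r ∧ (inner ℝ c r : ℝ) ≠ 0 :=
    ⟨Φ.filter fun c => ∃ r ∈ Φ, Nonc p ν r ∧ (inner ℝ c r : ℝ) ≠ 0, fun c => by simp⟩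
  have hne : S.Nonempty := by
    have h01 := hdiff 0 (by omega) 1 (by omega) (by norm_num)
    refine ⟨ν 0 - ν 1, (hS _).2 ⟨h01, ν 0 - ν 1, h01, ?_, (h.inner_pos h01).ne'⟩⟩
    refine ⟨0, by omega, 1, by omega, ?_⟩
    intro h1
    have h2 := h.inner_pos h01
    rw [inner_sub_left, h1, sub_self] at h2
    exact lt_irrefl _ h2
  have h1 : S = Φ := by
    refine h.irr S (fun c hc => ((hS c).1 hc).1) hne ?_
    intro c hc b hb hbS
    by_contra hcb
    obtain ⟨hcΦ, r, hr, hrn, hcr⟩ := (hS c).1 hc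
    have hb0 : ∀ r ∈ Φ, Nonc p ν r → (inner ℝ b r : ℝ) = 0 := by
      intro r' hr' hrn'
      by_contra h2
      exact hbS ((hS b).2 ⟨hb, r', hr', hrn', h2⟩)
    by_cases hcn : Nonc p ν c
    · apply hcb
      rw [real_inner_comm]
      exact hb0 c hcΦ hcn
    · have h2 := hb0 _ (h.refl c hcΦ r hr) (hrefl c hcn _ r hrn)
      rw [inner_sub_right, inner_smul_right, hb0 r hr hrn, zero_sub, neg_eq_zero] at h2
      rcases mul_eq_zero.1 h2 with h3 | h3
      · apply hcr
        rw [real_inner_comm]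
        exact (inn_eq_zero h hcΦ r).2 h3
      · apply hcb
        rw [real_inner_comm]
        exact h3
  intro c hc
  by_cases hcn : Nonc p ν c
  · exact hv c hc hcn
  · rw [← h1] at hc
    obtain ⟨hcΦ, r, hr, hrn, hcr⟩ := (hS c).1 hc
    have h2 := hv _ (h.refl c hcΦ r hr) (hrefl c hcn _ r hrn)
    rw [inner_sub_right, inner_smul_right, hv r hr hrn, zero_sub, neg_eq_zero] at h2
    rcases mul_eq_zero.1 h2 with h3 | h3
    · exfalso
      apply hcr
      rw [real_inner_comm]
      exact (inn_eq_zero h hcΦ r).2 h3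
    · exact h3

theorem Typ.small (hp : 0 < p) {x : E} (h : Typ p ν l x) : Small p ν l x := by
  rcases h with h | ⟨s, hs, k, hk, h⟩
  · refine ⟨inner ℝ (ν 0) x, 0, 0, hp, Or.inl rfl, fun i hi => ?_⟩
    have h1 := h i hi 0 hp
    rw [inner_sub_right, real_inner_comm, real_inner_comm (ν 0)] at h1
    linarith
  · refine ⟨inner ℝ (ν k) x - s * (l / 2), s, k, hk, Or.inr hs, fun i hi => ?_⟩
    have h1 := h i hi k hk
    rw [inner_sub_right, real_inner_comm, real_inner_comm (ν k), if_pos rfl] at h1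
    by_cases hik : i = k
    · subst hik
      rw [if_pos rfl]
      ring
    · rw [if_neg (Ne.symm hik)] at h1
      rw [if_neg hik]
      linarith

theorem EA.gram1 (A : EA Φ X ℓ c p ν l) {i : ℕ} (hi : i < p) :
    ∃ M : ℝ, ∀ j < p, (inner ℝ (ν j) (ν i) : ℝ) = M + if j = i then l / 2 else 0 := by
  refine ⟨inner ℝ (ν i) (ν i) - l / 2, fun j hj => ?_⟩
  have h1 := A.inn i hi j hj i hi
  rw [inner_sub_right, real_inner_comm (ν j) (ν i), if_pos rfl] at h1
  by_cases hji : j = i
  · subst hji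
    rw [if_pos rfl]
    ring
  · rw [if_neg (Ne.symm hji)] at h1
    rw [if_neg hji]
    linarith

/-- (3.1) The coordinates of a root of positive level. -/
theorem EA.pos_types (A : EA Φ X ℓ c p ν l) (typ : ∀ x ∈ X, Typ p ν l x) {g : E} (hg : g ∈ Φ) (h0 : 0 < ℓ g) :
    (∀ i < p, ∀ j < p, (inner ℝ (ν i) g : ℝ) = inner ℝ (ν j) g) ∨
    (∃ k < p, ∀ i < p, (inner ℝ (ν i) g : ℝ) = if i = k then l / 2 else 0) ∨
    (∃ k < p, ∃ m < p, k ≠ m ∧ ∀ i < p, (inner ℝ (ν i) g : ℝ) = if i = k ∨ i = m then l / 2 else 0) ∨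
    (∃ k < p, ∀ i < p, (inner ℝ (ν i) g : ℝ) = if i = k then l else 0) := by
  have h5 := A.ep.five
  by_cases hc : ∀ i < p, ∀ j < p, (inner ℝ (ν i) g : ℝ) = inner ℝ (ν j) g
  · exact Or.inl hc
  right
  have hn : Nonc p ν g := by
    push Not at hc
    exact hc
  have hnn : ∀ i < p, (0 : ℝ) ≤ inner ℝ (ν i) g := fun i hi => A.ep.top_nonneg hg h0 hi
  have hsm : ∀ i < p, (0 : ℝ) < inner ℝ (ν i) g → Small p ν l (ν i - g) := fun i hi h =>
    (typ _ (A.ep.sub_mem' hg (A.ep.mem hi).1 h)).small (by omega)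
  obtain ⟨i, hi, hpos⟩ : ∃ i < p, (0 : ℝ) < inner ℝ (ν i) g := by
    obtain ⟨i, hi, j, hj, hij⟩ := hn
    have h1 := hnn i hi
    have h2 := hnn j hj
    rcases h1.lt_or_eq with h3 | h3
    · exact ⟨i, hi, h3⟩
    · rcases h2.lt_or_eq with h4 | h4
      · exact ⟨j, hj, h4⟩
      · exact absurd (h3.symm.trans h4) hij
  exact coord_cases h5 A.lpos (fun i hi => A.gram1 hi) ((typ _ (A.ep.mem hi).1).small (by omega)) (hsm i hi hpos) hnn hsm hn

/-- A root of level zero is a difference of two weights of the top level, or orthogonal to all of them. -/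
theorem EA.zero_types (A : EA Φ X ℓ c p ν l) {g : E} (hg : g ∈ Φ) (h0 : ℓ g = 0) :
    (∃ i < p, ∃ j < p, i ≠ j ∧ g = ν i - ν j) ∨ ∀ i < p, (inner ℝ (ν i) g : ℝ) = 0 := by
  by_cases h1 : ∀ i < p, (inner ℝ (ν i) g : ℝ) = 0
  · exact Or.inr h1
  left
  push Not at h1
  obtain ⟨i, hi, hne⟩ := h1
  have key : ∀ g ∈ Φ, ℓ g = 0 → (0 : ℝ) < inner ℝ (ν i) g → ∃ j < p, i ≠ j ∧ g = ν i - ν j := by
    intro g hg h0 hp
    obtain ⟨j, hj, hj1⟩ := A.ep.top_sub hg h0 hi hp
    refine ⟨j, hj, ?_, ?_⟩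
    · rintro rfl
      have : g = 0 := by simpa using hj1
      exact A.ep.rs.ne_zero g hg this
    · rw [← hj1]
      abel
  rcases lt_or_gt_of_ne hne with h2 | h2
  · obtain ⟨j, hj, hij, h3⟩ := key (-g) (A.ep.neg hg) (by rw [map_neg, h0, neg_zero]) (by rw [inner_neg_right]; linarith)
    exact ⟨j, hj, i, hi, Ne.symm hij, by rw [neg_eq_iff_eq_neg.1 h3]; abel⟩
  · obtain ⟨j, hj, hij, h3⟩ := key g hg h0 h2
    exact ⟨i, hi, j, hj, hij, h3⟩

/-- (3.2) A vector which is orthogonal to all roots of non-zero type is orthogonal to all roots. -/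
theorem EA.orth (A : EA Φ X ℓ c p ν l) {y : E}
    (hy : ∀ g ∈ Φ, (∃ i < p, ∃ j < p, (inner ℝ (ν i) g : ℝ) ≠ inner ℝ (ν j) g) → (inner ℝ y g : ℝ) = 0) :
    ∀ g ∈ Φ, (inner ℝ y g : ℝ) = 0 :=
  orth_all A.ep.rs A.mem (by have := A.ep.five; omega) hy

end

end EP
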